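import Mathlib

set_option autoImplicit false

namespace Pool.Agent.Y78.KS

/-- The derived length of a group: the least `n` with trivial `n`-th derived subgroup. -/
noncomputable def derivedLength (X : Type) [Group X] : ℕ :=
  sInf {n : ℕ | derivedSeries X n = ⊥}

/-- The differences `d(G) - d(M)` over all finite solvable groups `G` with a surjection
`φ` onto `Γ`, where `M` is the preimage of `H`. -/
def liftGaps (Γ : Type) [Group Γ] (H : Subgroup Γ) : Set ℕ :=
  {δ | ∃ (G : Type) (_ : Group G) (φ : G →* Γ), Finite G ∧ Group.IsSolvable G ∧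
    Function.Surjective φ ∧ derivedLength G = derivedLength (H.comap φ) + δ}

/-- The supremum of `d(G) - d(M)` over all finite solvable groups `G` and all maximal
subgroups `M` of `G`. -/
noncomputable def kStar : ℕ∞ :=
  sSup {δ : ℕ∞ | ∃ (G : Type) (_ : Group G) (M : Subgroup G),
    Finite G ∧ Group.IsSolvable G ∧ IsCoatom M ∧
      δ = ((derivedLength G - derivedLength M : ℕ) : ℕ∞)}

end Pool.Agent.Y78.KS
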