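import Pool.Agent.Results.MP_0568c2_al.KStarInfinite

set_option autoImplicit false
set_option linter.unusedSectionVars false

/-!
Refinement of the construction in the starting file KStarInfinite: all stages are kept as
lifts of the given group.
-/

namespace Pool.Agent.Y78.KS

open Pool.Agent.Results.MP_0568c2_al.KStarInfinite
open scoped commutatorElement

/-- The stage `S'` lies over the stage `S`. -/
def Over {Ω : Type} (S S' : State Ω) : Prop :=
  ∃ φ : S'.G →* S.G, Function.Surjective φ ∧ ∀ (g : S'.G) (ω : Ω), g • ω = φ g • ω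

theorem Over.refl {Ω : Type} (S : State Ω) : Over S S :=
  ⟨MonoidHom.id _, fun g => ⟨g, rfl⟩, fun _ _ => rfl⟩

theorem Over.trans {Ω : Type} {S S' S'' : State Ω} (h : Over S S') (h' : Over S' S'') :
    Over S S'' := by
  obtain ⟨φ, h1, h2⟩ := h
  obtain ⟨ψ, h3, h4⟩ := h'
  exact ⟨φ.comp ψ, h1.comp h3, fun g ω => by rw [h4, h2]; rfl⟩

/-- Existence of a next stage with its relevant properties. -/
theorem exists_next {Ω : Type} (S : State Ω) : ∃ S' : State Ω, S'.t = S.t + 2 ∧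
    (∀ x y : S.X, ∃ z : S'.X, ∀ ω, S'.lev ω z = 1 + HG.cmb (S.lev ω x) (S.lev ω y)) ∧
    (∀ z : S'.X, ∃ x y : S.X, ∀ ω, S'.lev ω z = 1 + HG.cmb (S.lev ω x) (S.lev ω y)) ∧
    (∀ ω j, S.L ω j = ⊥ → (∀ x, S.lev ω x < j) →
      (∀ x y, HG.cmb (S.lev ω x) (S.lev ω y) < j) → S'.L ω j = ⊥) ∧ Over S S' := by
  obtain ⟨p, hp, hpp⟩ := Nat.exists_infinite_primes (Nat.card S.G + 1)
  have : Fact p.Prime := ⟨hpp⟩
  refine ⟨next S p (by omega), rfl, ?_, ?_, ?_, ?_⟩
  · intro x y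
    exact ⟨(⟨x, y, 0, 0⟩ : Pt S.X (ZMod p)), fun ω => rfl⟩
  · intro z
    exact ⟨Pt.x (F := ZMod p) z, Pt.y (F := ZMod p) z, fun ω => rfl⟩
  · intro ω j h1 h2 h3
    exact HG.lsub_bot (S.L ω) (S.lev ω) (S.lev ω) (S.Lanti ω) (S.lev_stab ω) (S.lev_stab ω) j
      h1 h2 h2 h3
  · exact ⟨HG.proj (X := S.X) (Y := S.X) (F := ZMod p), HG.proj_surjective, fun g ω => rfl⟩

/-- Reaching a stage with small levels. -/
theorem reach {Ω : Type} [Finite Ω] (S0 : State Ω) (x0 : S0.X) (c : Ω)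
    (hc : S0.lev c x0 = 0) (k : ℕ) (hk : k ≤ S0.t + 1) :
    ∃ S : State Ω, Over S0 S ∧ ∃ x : S.X, ∀ ω, S.lev ω x + k ≤ S.t + 1 := by
  classical
  choose nx h1 h2 h3 h4 h5 using fun S : State Ω => exists_next S
  let sq : ℕ → State Ω := fun n => nx^[n] S0
  have hsq : ∀ n, sq (n + 1) = nx (sq n) := fun n => Function.iterate_succ_apply' _ _ _
  let typ : (S : State Ω) → S.X → Ω → ℤ := fun S x ω => (S.t : ℤ) + 1 - S.lev ω x
  let T : Set (Ω → ℤ) := {f | ∃ n, ∃ x : (sq n).X, typ (sq n) x = f}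
  have hopx : ∀ (S : State Ω) (x y : S.X), ∃ z : (nx S).X,
      typ (nx S) z = fun ω => op (typ S x ω) (typ S y ω) := by
    intro S x y
    obtain ⟨z, hz⟩ := h2 S x y
    refine ⟨z, ?_⟩
    funext ω
    simp only [typ]
    rw [hz ω, h1 S]
    unfold op HG.cmb
    push_cast
    split_ifs <;> omega
  have hmono : ∀ n (x : (sq n).X), ∃ y : (sq (n + 1)).X, typ (sq (n + 1)) y = typ (sq n) x := by
    intro n x
    rw [hsq]
    obtain ⟨z, hz⟩ := hopx (sq n) x x
    refine ⟨z, ?_⟩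
    rw [hz]
    funext ω
    unfold op
    rw [if_pos rfl]
  have hmono' : ∀ d n (x : (sq n).X), ∃ y : (sq (n + d)).X,
      typ (sq (n + d)) y = typ (sq n) x := by
    intro d n x
    induction d with
    | zero => exact ⟨x, rfl⟩
    | succ d ih =>
      obtain ⟨y, hy⟩ := ih
      obtain ⟨z, hz⟩ := hmono (n + d) y
      exact ⟨z, hz.trans hy⟩
  have hT : ∃ f ∈ T, ∀ ω, (k : ℤ) ≤ f ω := by
    refine game T S0.t ?_ ?_ (typ S0 x0) ⟨0, x0, rfl⟩ c ?_ ?_ k hk
    · rintro f ⟨n, x, rfl⟩ g ⟨m, y, rfl⟩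
      obtain ⟨x', hx'⟩ := hmono' m n x
      obtain ⟨y', hy'⟩ := hmono' n m y
      have hnm : m + n = n + m := Nat.add_comm m n
      obtain ⟨y'', hy''⟩ : ∃ y'' : (sq (n + m)).X, typ (sq (n + m)) y'' = typ (sq m) y := by
        rw [← hnm]; exact ⟨y', hy'⟩
      obtain ⟨z, hz⟩ := hopx (sq (n + m)) x' y''
      refine ⟨n + m + 1, ?_⟩
      rw [hsq]
      refine ⟨z, ?_⟩
      rw [hz, hx', hy'']
    · rintro f ⟨n, x, rfl⟩ a b
      obtain ⟨g, hg⟩ := (sq n).trans a b
      refine ⟨MulAction.toPerm g, hg, n, g • x, ?_⟩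
      funext ω
      simp only [typ]
      have : (sq n).lev ω (g • x) = (sq n).lev ((MulAction.toPerm g).symm ω) x := by
        conv_lhs => rw [← smul_inv_smul g ω]
        exact (sq n).lev_smul g _ x
      rw [this]
    · simp only [typ]; rw [hc]; push_cast; omega
    · intro ω
      simp only [typ]
      have := S0.lev_le ω x0
      omega
  obtain ⟨f, ⟨n, x, rfl⟩, hf⟩ := hT
  have hov : ∀ n, Over S0 (sq n) := by
    intro n
    induction n with
    | zero => exact Over.refl _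
    | succ n ih => rw [hsq]; exact ih.trans (h5 _)
  refine ⟨sq n, hov n, x, fun ω => ?_⟩
  have := hf ω
  simp only [typ] at this
  omega

theorem iterate_small {Ω : Type} (S : State Ω) (x0 : S.X) (k : ℕ)
    (hlev : ∀ ω x, S.lev ω x + k ≤ S.t + 1) (m : ℕ) (hm : ∀ ω, S.L ω m = ⊥) (r : ℕ) :
    ∃ S' : State Ω, Over S S' ∧ S'.t = S.t + 2 * r ∧ Nonempty S'.X ∧
      (∀ ω x, S'.lev ω x + k ≤ S'.t + 1) ∧
      (∀ ω j, m ≤ j → S.t + 2 * r + 1 - k ≤ j → S'.L ω j = ⊥) := by
  induction r with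
  | zero =>
    refine ⟨S, Over.refl S, rfl, ⟨x0⟩, hlev, fun ω j hj _ => ?_⟩
    exact eq_bot_iff.2 ((S.Lanti ω hj).trans (hm ω).le)
  | succ r ih =>
    obtain ⟨S', hov, ht, ⟨x⟩, h1, h2⟩ := ih
    obtain ⟨S'', h3, h4, h5, h6, h7⟩ := exists_next S'
    refine ⟨S'', hov.trans h7, by rw [h3, ht]; ring, ?_, ?_, ?_⟩
    · obtain ⟨z, -⟩ := h4 x x
      exact ⟨z⟩
    · intro ω z
      obtain ⟨a, b, hab⟩ := h5 z
      rw [hab ω, h3]
      have ha := h1 ω a
      have hb := h1 ω b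
      unfold HG.cmb
      split_ifs <;> omega
    · intro ω j hj hj2
      refine h6 ω j (h2 ω j hj (by omega)) ?_ ?_
      · intro y
        have := h1 ω y
        omega
      · intro y z
        have ha := h1 ω y
        have hb := h1 ω z
        unfold HG.cmb
        split_ifs <;> omega

theorem conclusion {Ω : Type} [Finite Ω] (S0 : State Ω) (x0 : S0.X) (c : Ω)
    (hc : S0.lev c x0 = 0) (k : ℕ) (hk : k ≤ S0.t + 1) :
    ∃ S : State Ω, Over S0 S ∧ ∃ n : ℕ, derivedSeries (MulAction.stabilizer S.G c) n = ⊥ ∧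
      derivedSeries S.G (n + k - 1) ≠ ⊥ := by
  obtain ⟨S, hov, x, hx⟩ := reach S0 x0 c hc k hk
  let S1 : State Ω := S.restrict (fun y => ∀ ω, S.lev ω y + k ≤ S.t + 1) (by
    intro g y hy ω
    have h := hy (g⁻¹ • ω)
    have e : S.lev ω (g • y) = S.lev (g⁻¹ • ω) y := by
      conv_lhs => rw [← smul_inv_smul g ω]
      exact S.lev_smul g _ y
    rw [e]; exact h)
  obtain ⟨m, hm⟩ := S1.Lbot
  obtain ⟨S2, hov2, ht, ⟨z⟩, h1, h2⟩ := iterate_small S1 ⟨x, hx⟩ k (fun ω y => y.2 ω) m hm (m + k)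
  have hkt : k ≤ S2.t + 1 := by have := h1 c z; omega
  have hov1 : Over S S1 := ⟨MonoidHom.id _, fun g => ⟨g, rfl⟩, fun _ _ => rfl⟩
  refine ⟨S2, (hov.trans hov1).trans hov2, S2.t + 1 - k, ?_, ?_⟩
  · have h3 := derived_le_level S2 c (S2.t + 1 - k)
    have h4 : S2.L c (S2.t + 1 - k) = ⊥ := h2 c _ (by omega) (by omega)
    rw [h4, le_bot_iff, Subgroup.map_eq_bot_iff_of_injective _ (Subgroup.subtype_injective _)] at h3
    exact h3
  · intro hbot
    have h5 : S2.t + 1 - k + k - 1 = S2.t := by omega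
    rw [h5] at hbot
    obtain ⟨g, hg, hgz⟩ := S2.moves z
    rw [hbot, Subgroup.mem_bot] at hg
    rw [hg, one_smul] at hgz
    exact hgz rfl


theorem base_state {Γ : Type} [Group Γ] [Finite Γ] (hs : Group.IsSolvable Γ) (h : ℕ)
    (H : Subgroup Γ) (hH : IsCoatom H) (h1 : derivedSeries Γ (h + 1) ≤ H)
    (h2 : ¬ derivedSeries Γ h ≤ H) :
    ∃ S : State (Γ ⧸ H), S.t = h ∧ (∃ φ : S.G →* Γ, Function.Surjective φ ∧
      ∀ (g : S.G) (ω : Γ ⧸ H), g • ω = φ g • ω) ∧
      ∃ x : S.X, S.lev ((1 : Γ) : Γ ⧸ H) x = 0 := by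
  classical
  -- transitivity of the last derived subgroup
  have hsup : derivedSeries Γ h ⊔ H = ⊤ := by
    refine hH.2 _ (lt_of_le_of_ne le_sup_right ?_)
    intro hcon
    apply h2
    rw [hcon]
    exact le_sup_left
  have htr1 : ∀ g : Γ, ∃ a ∈ derivedSeries Γ h, a • ((1 : Γ) : Γ ⧸ H) = (g : Γ ⧸ H) := by
    intro g
    have hg : g ∈ ((derivedSeries Γ h ⊔ H : Subgroup Γ) : Set Γ) := by
      rw [hsup]; exact Subgroup.mem_top g
    rw [Subgroup.normal_mul] at hg
    obtain ⟨a, ha, b, hb, rfl⟩ := hg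
    refine ⟨a, ha, ?_⟩
    rw [MulAction.Quotient.smul_coe, smul_eq_mul, mul_one]
    rw [QuotientGroup.eq]
    simpa using hb
  have htr : ∀ a b : Γ ⧸ H, ∃ g ∈ derivedSeries Γ h, g • a = b := by
    intro a b
    obtain ⟨a', rfl⟩ := QuotientGroup.mk_surjective a
    obtain ⟨b', rfl⟩ := QuotientGroup.mk_surjective b
    obtain ⟨x, hx, hxa⟩ := htr1 a'
    obtain ⟨y, hy, hyb⟩ := htr1 b'
    refine ⟨y * x⁻¹, Subgroup.mul_mem _ hy (Subgroup.inv_mem _ hx), ?_⟩
    rw [← hxa, ← hyb, mul_smul, inv_smul_smul]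
  have hfixall : ∀ x ∈ derivedSeries Γ (h + 1), ∀ c : Γ ⧸ H, x • c = c := by
    intro x hx c
    obtain ⟨g, rfl⟩ := QuotientGroup.mk_surjective c
    rw [MulAction.Quotient.smul_coe, smul_eq_mul, eq_comm, QuotientGroup.eq]
    apply h1
    have := (derivedSeries_normal Γ (h + 1)).conj_mem x hx g⁻¹
    simpa [mul_assoc] using this
  have hcomm : ∀ a ∈ derivedSeries Γ h, ∀ b ∈ derivedSeries Γ h, ∀ c : Γ ⧸ H,
      a • b • c = b • a • c := by
    intro a ha b hb c
    have hx : ⁅a, b⁆ ∈ derivedSeries Γ (h + 1) := by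
      rw [derivedSeries_succ]
      exact Subgroup.commutator_mem_commutator ha hb
    have e : ⁅a, b⁆ * (b * a) = a * b := by
      simp [commutatorElement_def, mul_assoc]
    rw [← mul_smul, ← mul_smul, ← e, mul_smul, hfixall _ hx]
  have hmap : ∀ (ω : Γ ⧸ H) (j : ℕ), (derivedSeries (MulAction.stabilizer Γ ω) j).map
      (MulAction.stabilizer Γ ω).subtype ≤ derivedSeries Γ j := fun ω j =>
    map_derivedSeries_le_derivedSeries _ j
  have hstab : ∀ (ω : Γ ⧸ H) (j : ℕ), (derivedSeries (MulAction.stabilizer Γ ω) j).map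
      (MulAction.stabilizer Γ ω).subtype ≤ MulAction.stabilizer Γ ω := by
    intro ω j x hx
    obtain ⟨y, -, rfl⟩ := Subgroup.mem_map.1 hx
    exact y.2
  refine ⟨{ G := Γ
            X := Γ ⧸ H
            solv := hs
            trans := fun a b => ?_
            mx := ?_
            t := h
            moves := ?_
            L := fun ω j => (derivedSeries (MulAction.stabilizer Γ ω) j).map
              (MulAction.stabilizer Γ ω).subtype
            L0 := ?_
            Lanti := ?_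
            Lcomm := ?_
            lev := fun ω c => if c = ω then 0 else h
            lev_smul := ?_
            lev_fix := ?_
            lev_le := ?_
            Lbot := ?_ }, rfl, ⟨MonoidHom.id Γ, fun g => ⟨g, rfl⟩, fun _ _ => rfl⟩,
          ((1 : Γ) : Γ ⧸ H), if_pos rfl⟩
  · obtain ⟨g, -, hg⟩ := htr a b
    exact ⟨g, hg⟩
  · intro ω
    obtain ⟨g, -, hg⟩ := htr ω ((1 : Γ) : Γ ⧸ H)
    have e : MulAction.stabilizer Γ ω = H.comap (MulAut.conj g).toMonoidHom := by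
      ext x
      rw [Subgroup.mem_comap, MulAction.mem_stabilizer_iff]
      have e1 : ω = g⁻¹ • ((1 : Γ) : Γ ⧸ H) := by rw [← hg, inv_smul_smul]
      have e2 : MulAction.stabilizer Γ ((1 : Γ) : Γ ⧸ H) = H := MulAction.stabilizer_quotient H
      have e3 : ((MulAut.conj g).toMonoidHom x) ∈ H ↔
          (g * x * g⁻¹) • ((1 : Γ) : Γ ⧸ H) = ((1 : Γ) : Γ ⧸ H) := by
        rw [← MulAction.mem_stabilizer_iff, e2]
        rfl
      rw [e3, e1]
      constructor
      · intro h3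
        rw [mul_smul, mul_smul, h3, smul_inv_smul]
      · intro h3
        rw [mul_smul, mul_smul] at h3
        rw [eq_inv_smul_iff]
        exact h3
    rw [e]
    exact isCoatom_comap _ (MulAut.conj g).surjective hH
  · intro c
    by_contra hcon
    push Not at hcon
    apply hH.1
    rw [eq_top_iff]
    intro g _
    obtain ⟨a, ha, hac⟩ := htr c ((1 : Γ) : Γ ⧸ H)
    obtain ⟨b, hb, hbc⟩ := htr c (g : Γ ⧸ H)
    have e : ((1 : Γ) : Γ ⧸ H) = (g : Γ ⧸ H) := by
      rw [← hac, ← hbc, hcon a ha, hcon b hb]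
    have := QuotientGroup.eq.1 e
    simpa using this
  · intro ω
    ext x
    constructor
    · intro hx; exact hstab ω 0 hx
    · intro hx
      exact Subgroup.mem_map.2 ⟨⟨x, hx⟩, Subgroup.mem_top _, rfl⟩
  · intro ω i j hij
    exact Subgroup.map_mono (derivedSeries_antitone _ hij)
  · intro ω j
    rw [← Subgroup.map_commutator, ← derivedSeries_succ]
  · intro g ω c
    by_cases hc : c = ω
    · rw [if_pos hc, if_pos (by rw [hc])]
    · rw [if_neg hc, if_neg (fun h3 => hc (smul_left_cancel g h3))]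
  · intro ω c g hg
    by_cases hc : c = ω
    · subst hc
      exact hstab _ _ hg
    · rw [if_neg hc] at hg
      have hg1 : g ∈ derivedSeries Γ h := hmap ω h hg
      have hg2 : g • ω = ω := hstab _ _ hg
      obtain ⟨b, hb, hbc⟩ := htr ω c
      rw [← hbc, hcomm g hg1 b hb, hg2]
  · intro ω c
    by_cases hc : c = ω
    · rw [if_pos hc]; exact Nat.zero_le _
    · rw [if_neg hc]
  · obtain ⟨m, hm⟩ := hs.solvable
    refine ⟨m, fun ω => ?_⟩
    rw [eq_bot_iff, ← hm]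
    exact hmap ω m



end Pool.Agent.Y78.KS
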