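import Pool.Agent.Y78.KS.Ext
import Pool.Agent.Y78.KS.Defs

set_option autoImplicit false
set_option linter.unusedSectionVars false

/-!
The exact set of values of `d(G) - d(M)` over all lifts of a given finite solvable group with a
given maximal subgroup.
-/

namespace Pool.Agent.Y78.KS

open Pool.Agent.Results.MP_0568c2_al.KStarInfinite (State)

section Basic

variable {X Y : Type} [Group X] [Group Y]

theorem dl_spec (h : Group.IsSolvable X) : derivedSeries X (derivedLength X) = ⊥ := by
  obtain ⟨N, hN⟩ := h.solvable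
  exact Nat.sInf_mem (s := {m : ℕ | derivedSeries X m = ⊥}) ⟨N, hN⟩

theorem dl_le {n : ℕ} (h : derivedSeries X n = ⊥) : derivedLength X ≤ n := Nat.sInf_le h

theorem bot_of_dl_le (h : Group.IsSolvable X) {n : ℕ} (hn : derivedLength X ≤ n) :
    derivedSeries X n = ⊥ :=
  eq_bot_iff.mpr ((derivedSeries_antitone X hn).trans (dl_spec h).le)

theorem lt_dl (h : Group.IsSolvable X) {n : ℕ} (hn : derivedSeries X n ≠ ⊥) :
    n < derivedLength X := by
  by_contra hcon
  exact hn (bot_of_dl_le h (not_lt.1 hcon))

theorem dl_le_of_injective (f : X →* Y) (hf : Function.Injective f) (hY : Group.IsSolvable Y) :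
    derivedLength X ≤ derivedLength Y := by
  apply dl_le
  have h1 := map_derivedSeries_le_derivedSeries f (derivedLength Y)
  rwa [dl_spec hY, le_bot_iff, Subgroup.map_eq_bot_iff_of_injective _ hf] at h1

theorem derivedSeries_prod (n : ℕ) :
    derivedSeries (X × Y) n = (derivedSeries X n).prod (derivedSeries Y n) := by
  induction n with
  | zero => simp
  | succ n ih => rw [derivedSeries_succ, derivedSeries_succ, derivedSeries_succ, ih,
      Subgroup.commutator_prod_prod]

theorem dl_prod (hX : Group.IsSolvable X) (hY : Group.IsSolvable Y) :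
    derivedLength (X × Y) = max (derivedLength X) (derivedLength Y) := by
  have hXY : Group.IsSolvable (X × Y) := inferInstance
  apply le_antisymm
  · apply dl_le
    rw [derivedSeries_prod, bot_of_dl_le hX (le_max_left _ _), bot_of_dl_le hY (le_max_right _ _)]
    exact Subgroup.bot_prod_bot
  · apply max_le
    · exact dl_le_of_injective (MonoidHom.inl X Y) (fun a b h => (Prod.ext_iff.1 h).1) hXY
    · exact dl_le_of_injective (MonoidHom.inr X Y) (fun a b h => (Prod.ext_iff.1 h).2) hXY

/-- The quotient by a term of the derived series. -/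
theorem dl_quot (hX : Group.IsSolvable X) {e : ℕ} (he : e ≤ derivedLength X) :
    derivedLength (X ⧸ derivedSeries X e) = e := by
  have hmap : ∀ n, (derivedSeries X n).map (QuotientGroup.mk' (derivedSeries X e)) =
      derivedSeries (X ⧸ derivedSeries X e) n := fun n =>
    map_derivedSeries_eq (QuotientGroup.mk'_surjective _) n
  have hQ : Group.IsSolvable (X ⧸ derivedSeries X e) := inferInstance
  apply le_antisymm
  · apply dl_le
    rw [← hmap, Subgroup.map_eq_bot_iff, QuotientGroup.ker_mk']
  · by_contra hcon
    push Not at hcon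
    set m := derivedLength (X ⧸ derivedSeries X e) with hm
    have h1 : derivedSeries X m ≤ derivedSeries X e := by
      have := dl_spec hQ
      rw [← hm, ← hmap, Subgroup.map_eq_bot_iff, QuotientGroup.ker_mk'] at this
      exact this
    have h2 : derivedSeries X m ≤ derivedSeries X (m + 1) :=
      h1.trans (derivedSeries_antitone X (by omega))
    have h3 : ∀ j, derivedSeries X m ≤ derivedSeries X (m + j) := by
      intro j
      induction j with
      | zero => exact le_rfl
      | succ j ih =>
        refine h2.trans ?_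
        rw [← add_assoc, derivedSeries_succ, derivedSeries_succ]
        exact Subgroup.commutator_mono ih ih
    have h4 : derivedSeries X m = ⊥ := by
      rw [eq_bot_iff, ← dl_spec hX]
      obtain ⟨j, hj⟩ := Nat.exists_eq_add_of_le (by omega : m ≤ derivedLength X)
      rw [hj]
      exact h3 j
    have := dl_le h4
    omega

end Basic

section Bounds

variable {G Γ : Type} [Group G] [Group Γ]

theorem derived_le_core (hΓ : Group.IsSolvable Γ) (H : Subgroup Γ) :
    derivedSeries Γ (derivedLength (Γ ⧸ H.normalCore)) ≤ H.normalCore := by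
  have hQ : Group.IsSolvable (Γ ⧸ H.normalCore) := inferInstance
  have h1 := dl_spec hQ
  rw [← map_derivedSeries_eq (QuotientGroup.mk'_surjective H.normalCore),
    Subgroup.map_eq_bot_iff, QuotientGroup.ker_mk'] at h1
  exact h1

/-- The upper bound. -/
theorem upper (hG : Group.IsSolvable G) (hΓ : Group.IsSolvable Γ) (φ : G →* Γ)
    (H : Subgroup Γ) :
    derivedLength G ≤ derivedLength (H.comap φ) + derivedLength (Γ ⧸ H.normalCore) := by
  set e := derivedLength (Γ ⧸ H.normalCore) with he
  have h0 : derivedSeries G e ≤ H.comap φ := by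
    rw [← Subgroup.map_le_iff_le_comap]
    exact (map_derivedSeries_le_derivedSeries φ e).trans
      ((derived_le_core hΓ H).trans (Subgroup.normalCore_le H))
  have h1 : ∀ j, derivedSeries G (e + j) ≤
      (derivedSeries (H.comap φ) j).map (H.comap φ).subtype := by
    intro j
    induction j with
    | zero =>
      intro x hx
      exact Subgroup.mem_map.2 ⟨⟨x, h0 hx⟩, Subgroup.mem_top _, rfl⟩
    | succ j ih =>
      rw [← add_assoc, derivedSeries_succ, derivedSeries_succ, Subgroup.map_commutator]
      exact Subgroup.commutator_mono ih ih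
  have hM : Group.IsSolvable (H.comap φ) := inferInstance
  have h2 := h1 (derivedLength (H.comap φ))
  rw [dl_spec hM, Subgroup.map_bot, le_bot_iff] at h2
  have := dl_le h2
  omega

/-- The derived length of the quotient by the core, for a maximal subgroup not containing the
`h`-th derived subgroup. -/
theorem lt_dl_core (hΓ : Group.IsSolvable Γ) (H : Subgroup Γ) (h : ℕ)
    (h2 : ¬ derivedSeries Γ h ≤ H) : h < derivedLength (Γ ⧸ H.normalCore) := by
  by_contra hcon
  apply h2
  exact (derivedSeries_antitone Γ (not_lt.1 hcon)).trans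
    ((derived_le_core hΓ H).trans (Subgroup.normalCore_le H))

/-- The extremal lift. -/
theorem exists_lift [Finite Γ] (hΓ : Group.IsSolvable Γ) (H : Subgroup Γ) (hH : IsCoatom H) :
    ∃ (G : Type) (_ : Group G) (φ : G →* Γ), Finite G ∧ Group.IsSolvable G ∧
      Function.Surjective φ ∧
      derivedLength G = derivedLength (H.comap φ) + derivedLength (Γ ⧸ H.normalCore) := by
  classical
  have hcore : H.normalCore ≠ ⊤ := fun h => hH.1 (top_le_iff.1 (h ▸ Subgroup.normalCore_le H))
  have hpos : derivedLength (Γ ⧸ H.normalCore) ≠ 0 := by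
    intro h0
    apply hcore
    have := derived_le_core hΓ H
    rw [h0, derivedSeries_zero, top_le_iff] at this
    exact this
  obtain ⟨h, hh⟩ := Nat.exists_eq_succ_of_ne_zero hpos
  have h1 : derivedSeries Γ (h + 1) ≤ H := by
    have := derived_le_core hΓ H
    rw [hh] at this
    exact this.trans (Subgroup.normalCore_le H)
  have h2 : ¬ derivedSeries Γ h ≤ H := by
    intro hle
    have h3 : derivedSeries Γ h ≤ H.normalCore := Subgroup.normal_le_normalCore.2 hle
    have h4 : derivedSeries (Γ ⧸ H.normalCore) h = ⊥ := by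
      rw [← map_derivedSeries_eq (QuotientGroup.mk'_surjective H.normalCore),
        Subgroup.map_eq_bot_iff, QuotientGroup.ker_mk']
      exact h3
    have := dl_le h4
    omega
  obtain ⟨S0, ht, ⟨φ0, hφ0, hact0⟩, x0, hx0⟩ := base_state hΓ h H hH h1 h2
  obtain ⟨S, ⟨φ1, hφ1, hact1⟩, n, hn1, hn2⟩ := conclusion S0 x0 ((1 : Γ) : Γ ⧸ H) hx0 (h + 1)
    (by omega)
  have hS : Group.IsSolvable S.G := S.solv
  have hst : MulAction.stabilizer S.G ((1 : Γ) : Γ ⧸ H) = H.comap (φ0.comp φ1) := by
    ext g
    rw [MulAction.mem_stabilizer_iff, Subgroup.mem_comap, hact1, hact0, MonoidHom.comp_apply]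
    rw [MulAction.Quotient.smul_coe, smul_eq_mul, mul_one, eq_comm, QuotientGroup.eq]
    simp
  refine ⟨S.G, inferInstance, φ0.comp φ1, S.fin, hS, hφ0.comp hφ1, ?_⟩
  apply le_antisymm (upper hS hΓ _ H)
  rw [← hst, hh]
  have e1 : derivedLength (MulAction.stabilizer S.G ((1 : Γ) : Γ ⧸ H)) ≤ n := dl_le hn1
  have e2 := lt_dl hS hn2
  omega

end Bounds

/-- The main theorem: the exact set of differences over all lifts. -/
theorem liftGaps_eq (Γ : Type) [Group Γ] [Finite Γ] [Group.IsSolvable Γ] (H : Subgroup Γ)
    (hH : IsCoatom H) : liftGaps Γ H = Set.Iic (derivedLength (Γ ⧸ H.normalCore)) := by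
  have hΓ : Group.IsSolvable Γ := inferInstance
  ext δ
  constructor
  · rintro ⟨G, _, φ, hfin, hG, hφ, hδ⟩
    have := upper hG hΓ φ H
    rw [Set.mem_Iic]
    omega
  · intro hδ
    rw [Set.mem_Iic] at hδ
    obtain ⟨G, _, φ, hfin, hG, hφ, hd⟩ := exists_lift hΓ H hH
    have hM : Group.IsSolvable (H.comap φ) := inferInstance
    obtain ⟨e, he⟩ : ∃ e, derivedLength G = e + δ := ⟨derivedLength G - δ, by omega⟩
    have hQ : Group.IsSolvable (G ⧸ derivedSeries G e) := inferInstance
    have hq : derivedLength (G ⧸ derivedSeries G e) = e := dl_quot hG (by omega)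
    refine ⟨G × (G ⧸ derivedSeries G e), inferInstance, φ.comp (MonoidHom.fst _ _), inferInstance,
      inferInstance, hφ.comp Prod.fst_surjective, ?_⟩
    have e1 : derivedLength (G × (G ⧸ derivedSeries G e)) = derivedLength G := by
      rw [dl_prod hG hQ, hq]; omega
    have hK : Group.IsSolvable
        (H.comap (φ.comp (MonoidHom.fst G (G ⧸ derivedSeries G e)))) := inferInstance
    have hMK : Group.IsSolvable ((H.comap φ) × (G ⧸ derivedSeries G e)) := inferInstance
    have e2 : derivedLength (H.comap (φ.comp (MonoidHom.fst G (G ⧸ derivedSeries G e)))) =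
        derivedLength ((H.comap φ) × (G ⧸ derivedSeries G e)) := by
      apply le_antisymm
      · refine dl_le_of_injective
          ({ toFun := fun x => (⟨x.1.1, x.2⟩, x.1.2)
             map_one' := rfl
             map_mul' := fun _ _ => rfl } :
            (H.comap (φ.comp (MonoidHom.fst G (G ⧸ derivedSeries G e)))) →*
              (H.comap φ) × (G ⧸ derivedSeries G e)) ?_ hMK
        rintro ⟨⟨a, b⟩, hab⟩ ⟨⟨c, d⟩, hcd⟩ h
        have h1 := (Prod.ext_iff.1 h).1
        have h2 := (Prod.ext_iff.1 h).2
        apply Subtype.ext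
        exact Prod.ext (congrArg Subtype.val h1) h2
      · refine dl_le_of_injective
          ({ toFun := fun x => ⟨(x.1.1, x.2), x.1.2⟩
             map_one' := rfl
             map_mul' := fun _ _ => rfl } :
            (H.comap φ) × (G ⧸ derivedSeries G e) →*
            (H.comap (φ.comp (MonoidHom.fst G (G ⧸ derivedSeries G e))))) ?_ hK
        rintro ⟨⟨a, ha⟩, b⟩ ⟨⟨c, hc⟩, d⟩ h
        have h1 := congrArg Subtype.val h
        have h2 := (Prod.ext_iff.1 h1).1
        have h3 := (Prod.ext_iff.1 h1).2
        exact Prod.ext (Subtype.ext h2) h3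
    rw [e1, e2, dl_prod hM hQ, hq]
    omega

/-- Every natural number is a difference `d(G) - d(M)` up to any bound: `k* = ∞`. -/
theorem kStar_top : kStar = ⊤ := by
  rw [kStar, sSup_eq_top]
  intro b hb
  obtain ⟨k, rfl⟩ := ENat.ne_top_iff_exists.mp hb.ne
  obtain ⟨Γ, _, _, H, h, hn, hs, -, hH, h2⟩ :=
    Pool.Agent.Results.MP_0568c2_al.KStarInfinite.exists_base (k + 1)
  have h3 := lt_dl_core hs H h h2
  obtain ⟨G, _, φ, hfin, hG, hφ, hd⟩ := exists_lift hs H hH
  refine ⟨_, ⟨G, inferInstance, H.comap φ, hfin, hG,
    Pool.Agent.Results.MP_0568c2_al.KStarInfinite.isCoatom_comap φ hφ hH, rfl⟩, ?_⟩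
  exact_mod_cast (by omega : k < derivedLength G - derivedLength (H.comap φ))

end Pool.Agent.Y78.KS
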